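import Pool.Agent.Work.MP_d5b3be_an.BU.AllS

/-!
# The Brezis-Nirenberg problem in bodies of revolution: a uniform threshold

There are absolute constants `C, c > 0` such that for every nonempty bounded open body of revolution `Ω`
of `ℝ³` (no symmetry besides the rotations about the axis, no convexity, no regularity of the boundary)
and every `lam ≥ C lam1(Ω)` (`lam1` the first Dirichlet eigenvalue) the problem `-Δu = u⁵ + lam u`,
`u ∈ H¹₀(Ω)`, has at least `c √(lam/lam1(Ω))` infinite families of pairwise different nontrivial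
solutions. All members of a family have the same energy `∫ u⁶`, and the energies of the families are
strictly increasing.
-/

set_option autoImplicit false

namespace Pool.Agent.Results.MP_d5b3be_an.AllBodiesOfRevolution

open Pool.Agent.Work.MP_d5b3be_an.BN
open Pool.Agent.Work.MP_d5b3be_an.BU

theorem result : ∃ C c : ℝ, 0 < C ∧ 0 < c ∧ ∀ Ω : Set E3, IsOpen Ω → Ω.Nonempty →
    Bornology.IsBounded Ω → (∀ (t : ℝ) (x : E3), x ∈ Ω → rot t x ∈ Ω) →
    ∀ lam : ℝ, C * lam1 Ω ≤ lam → FamE Ω lam (c * Real.sqrt (lam / lam1 Ω)) :=
  Asm_S all_ROT all_ROS all_DIS all_SLL all_UNF all_KEY all_L1P all_EX2 all_STM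

end Pool.Agent.Results.MP_d5b3be_an.AllBodiesOfRevolution
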