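import Pool.Agent.Work.MP_d5b3be_an.BN.All
import Pool.Agent.Work.MP_d5b3be_an.BU.AsmF
import Pool.Agent.Work.MP_d5b3be_an.BU.STF
import Pool.Agent.Work.MP_d5b3be_an.BU.STI
import Pool.Agent.Work.MP_d5b3be_an.BU.STC
import Pool.Agent.Work.MP_d5b3be_an.BU.STM
import Pool.Agent.Work.MP_d5b3be_an.BU.EX2

/-!
# The Brezis-Nirenberg problem in flat convex bodies of revolution: all `lam ≥ lam1`

There are absolute constants `κ, c > 0` such that for every bounded open convex body of revolution `Ω` of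
`ℝ³` with radius `R` and height `H = b - a ≤ κ R` and EVERY `lam ≥ (1 - κ) (π/H)²` the problem
`-Δu = u⁵ + lam u`, `u ∈ H¹₀(Ω)`, has at least `c R sqrt(lam)` infinite families of pairwise different
nontrivial solutions; all solutions of a family have the same energy `∫ u⁶`, and these energies are
strictly increasing from family to family. As `(π/H)² ≤ lam1(Ω)`, this contains every `lam ≥ lam1(Ω)` and
every `lam` in `[(1-κ) lam1(Ω), lam1(Ω)]`.
-/

set_option autoImplicit false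

namespace Pool.Agent.Results.MP_d5b3be_an.FlatConvexBodies

open MeasureTheory
open Pool.Agent.Work.MP_d5b3be_an.BN
open Pool.Agent.Work.MP_d5b3be_an.BU

theorem result : ∃ κ c : ℝ, 0 < κ ∧ κ < 1 ∧ 0 < c ∧ ∀ (Ω : Set E3) (R a b : ℝ), IsOpen Ω →
    Ω.Nonempty → Bornology.IsBounded Ω → Convex ℝ Ω →
    (∀ (t : ℝ) (x : E3), x ∈ Ω → rot t x ∈ Ω) →
    IsLUB ((fun x : E3 => Real.sqrt (x 0 ^ 2 + x 1 ^ 2)) '' Ω) R →
    IsGLB ((fun x : E3 => x 2) '' Ω) a → IsLUB ((fun x : E3 => x 2) '' Ω) b → b - a ≤ κ * R →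
    (Real.pi / (b - a)) ^ 2 ≤ lam1 Ω ∧
    ∀ lam : ℝ, (1 - κ) * (Real.pi / (b - a)) ^ 2 ≤ lam →
      FamE Ω lam (c * R * Real.sqrt lam) :=
  AsmF_B all_ROT all_TFC all_CLB all_ROS all_DIS all_SEC all_BXC all_RNC all_NT1 all_NB1 all_EG2
    all_NZT (prfEX2 all_CLT all_SOB all_INF all_CPT all_EUL all_HCL all_SYM all_NSY)
    (prfSTM (prfSTF all_ROT) (prfSTI all_ROT all_CYD all_CYI all_WAP) prfSTC all_CLT all_SOB
      all_HS6 all_LCV all_L6C)

end Pool.Agent.Results.MP_d5b3be_an.FlatConvexBodies
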