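import Pool.Agent.Work.MP_d5b3be_an.BN.All
import Pool.Agent.Work.MP_d5b3be_an.BU.AllS
import Pool.Agent.Work.MP_d5b3be_an.BU.AsmR

/-!
# The Brezis-Nirenberg problem in flat bodies of revolution of any shape which contain a thick ring

For every `0 < θ ≤ 1` there are `κ ∈ (0,1)` and `c > 0`, depending on `θ` only, with the following
property. Let `Ω` be a bounded open set of `ℝ³` invariant under the rotations about the third axis,
contained in the cylinder `ρ < R`, `a < z < b`, and let it contain the ring `r1 ≤ ρ ≤ r1 + w`,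
`|z - z1| ≤ (1 - κ) (b - a)/2` with `r1 ≥ θ R` and `w ≥ (b - a)/κ`. Nothing else is assumed of the shape of
`Ω`. Then `(π/(b-a))² ≤ lam1(Ω)`, and for EVERY `lam ≥ (1 - κ) (π/(b-a))²` the problem `-Δu = u⁵ + lam u`,
`u ∈ H¹₀(Ω)`, has at least `c R sqrt(lam)` infinite families of pairwise different nontrivial solutions;
all solutions of a family have the same energy `∫ u⁶`, and these energies are strictly increasing from
family to family.
-/

set_option autoImplicit false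

namespace Pool.Agent.Results.MP_d5b3be_an.FlatRings

open MeasureTheory
open Pool.Agent.Work.MP_d5b3be_an.BN
open Pool.Agent.Work.MP_d5b3be_an.BU

theorem result : ∀ θ : ℝ, 0 < θ → θ ≤ 1 → ∃ κ c : ℝ, 0 < κ ∧ κ < 1 ∧ 0 < c ∧
    ∀ (Ω : Set E3) (R a b r1 w z1 : ℝ), IsOpen Ω → Bornology.IsBounded Ω →
      (∀ (t : ℝ) (x : E3), x ∈ Ω → rot t x ∈ Ω) → 0 < R → a < b →
      (∀ x ∈ Ω, Real.sqrt (x 0 ^ 2 + x 1 ^ 2) < R ∧ a < x 2 ∧ x 2 < b) →
      θ * R ≤ r1 → b - a ≤ κ * w →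
      (∀ x : E3, r1 ≤ Real.sqrt (x 0 ^ 2 + x 1 ^ 2) → Real.sqrt (x 0 ^ 2 + x 1 ^ 2) ≤ r1 + w →
        |x 2 - z1| ≤ (1 - κ) * ((b - a) / 2) → x ∈ Ω) →
      (Real.pi / (b - a)) ^ 2 ≤ lam1 Ω ∧
      ∀ lam : ℝ, (1 - κ) * (Real.pi / (b - a)) ^ 2 ≤ lam →
        FamE Ω lam (c * R * Real.sqrt lam) :=
  AsmR_B all_ROT all_TFC all_CLB all_ROS all_DIS all_BMP all_BXF all_BXI all_EG2 all_NZT all_SLL
    all_UNF all_KEY all_EX2 all_STM

end Pool.Agent.Results.MP_d5b3be_an.FlatRings
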